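import Mathlib
import Pool.Agent.B7219d.Final

/-!
# COLOURING is polynomial-time solvable for the four open pairs
-/

set_option autoImplicit false

namespace Pool.Agent.Results.MP_b7219d_lc.ColouringPoly

open Pool.Agent.B7219d

/-- COLOURING is polynomial-time solvable for `(H₁, H₂)`-free graphs when `H₁` is the triangle or
the paw and `H₂` is `P_1 + S_{1,1,3}` or `S_{1,2,3}`. -/
theorem result : PolyColouring triangle P1S113 ∧ PolyColouring triangle S123 ∧
    PolyColouring paw P1S113 ∧ PolyColouring paw S123 := all_four

end Pool.Agent.Results.MP_b7219d_lc.ColouringPoly
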